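import Pool.Agent.L5helper81.PC.Step

set_option autoImplicit false

/-! The upper bound `γ*(ℓ₁ ⊕₂ Y) ≤ 2/√3` for separable real inner product spaces `Y`. -/

open scoped ENNReal
open WithLp Filter Topology
open Pool.Agent.Results.MP_d84bc5_an.PackingCovering

namespace Pool.Agent.L5helper81.PC

variable {Y : Type*} [NormedAddCommGroup Y] [InnerProductSpace ℝ Y]

lemma step (k : ℕ) (G : AddSubgroup (WithLp 2 (L1 × Y))) (hI : Inv G) (hG : G ≤ Vk Y k)
    (x : WithLp 2 (L1 × Y)) (hx : x ∈ Vk Y k) :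
    ∃ G' : AddSubgroup (WithLp 2 (L1 × Y)), G ≤ G' ∧ Inv G' ∧ G' ≤ Vk Y (k + 1) ∧
      ∃ y ∈ G', ‖x - y‖ ≤ (2 / √3 : ℝ) := by
  by_cases hc : ∃ y ∈ G, ‖x - y‖ ≤ (2 / √3 : ℝ)
  · exact ⟨G, le_rfl, hI, hG.trans (Vk_mono (by omega)), hc⟩
  push Not at hc
  have hρ2 := rho_sq
  have hρ1 := one_le_rho
  have hρ3 := rho_lt
  have hρ4 := lt_rho
  obtain ⟨q, hq2, hq0⟩ : ∃ q : ℝ, q ^ 2 = 3 ∧ 0 < q := ⟨√3, sqrt3_bounds.1, sqrt3_bounds.2⟩
  have hP := hI.1
  have hunc : ∀ y ∈ G, 4 / 3 ≤ ‖x.fst - y.fst‖ ^ 2 + ‖x.snd - y.snd‖ ^ 2 := by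
    intro y hy
    have h1 := pow_lt_pow_left₀ (hc y hy) (by linarith) (n := 2) (by norm_num)
    rw [nsq, WithLp.sub_fst, WithLp.sub_snd, hρ2] at h1
    exact h1.le
  have hend : ∀ (s : ℝ) (u : Y), 1 ≤ s → s ^ 2 + ‖u‖ ^ 2 = 4 / 3 →
      (∀ y ∈ G, 4 ≤ (‖x.fst - y.fst‖ + s) ^ 2 + ‖(x.snd - y.snd) + u‖ ^ 2 ∧
        (‖x.fst - y.fst‖ + s < (2 / √3 : ℝ) → ‖(x.snd - y.snd) + u‖ ^ 2 ≤ 3)) →
      ∃ G' : AddSubgroup (WithLp 2 (L1 × Y)), G ≤ G' ∧ Inv G' ∧ G' ≤ Vk Y (k + 1) ∧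
        ∃ y ∈ G', ‖x - y‖ ≤ (2 / √3 : ℝ) := by
    intro s u hs1 hsu key
    have hfst : ∀ y ∈ G,
        ‖(toLp 2 (x.fst + lp.single 1 k s, x.snd + u) - y).fst‖ = ‖x.fst - y.fst‖ + s := by
      intro y hy
      have e : (toLp 2 (x.fst + lp.single 1 k s, x.snd + u) - y).fst =
          (x.fst - y.fst) + lp.single 1 k s := by
        rw [WithLp.sub_fst]; simp only [WithLp.toLp_fst]; abel
      rw [e, norm_add_single _ _ _ (by
        rw [lp.coeFn_sub, Pi.sub_apply, hx k le_rfl, hG hy k le_rfl, sub_zero]),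
        abs_of_nonneg (by linarith)]
    have hsnd : ∀ y : WithLp 2 (L1 × Y),
        (toLp 2 (x.fst + lp.single 1 k s, x.snd + u) - y).snd = (x.snd - y.snd) + u := by
      intro y
      rw [WithLp.sub_snd]; simp only [WithLp.toLp_snd]; abel
    obtain ⟨hA, hB⟩ := add_gen' k G hG hI s hs1 x.fst hx (x.snd + u) (by
      intro y hy
      obtain ⟨k1, k2⟩ := key y hy
      refine ⟨?_, ?_, ?_⟩
      · rw [hfst y hy]; linarith [norm_nonneg (x.fst - y.fst)]
      · have h4 : 4 ≤ ‖toLp 2 (x.fst + lp.single 1 k s, x.snd + u) - y‖ ^ 2 := by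
          rw [nsq, hfst y hy, hsnd]; exact k1
        by_contra hlt
        push Not at hlt
        nlinarith [norm_nonneg (toLp 2 (x.fst + lp.single 1 k s, x.snd + u) - y)]
      · rw [hfst y hy, hsnd]; exact k2)
    refine ⟨_, le_sup_left, hA, hB, toLp 2 (x.fst + lp.single 1 k s, x.snd + u),
      (le_sup_right : AddSubgroup.zmultiples (toLp 2 (x.fst + lp.single 1 k s, x.snd + u)) ≤ _)
        (AddSubgroup.mem_zmultiples _), ?_⟩
    have e : ‖x - toLp 2 (x.fst + lp.single 1 k s, x.snd + u)‖ ^ 2 = (2 / √3 : ℝ) ^ 2 := by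
      rw [nsq]
      have e1 : (x - toLp 2 (x.fst + lp.single 1 k s, x.snd + u)).fst = - lp.single 1 k s := by
        rw [WithLp.sub_fst]; simp only [WithLp.toLp_fst]; abel
      have e2 : (x - toLp 2 (x.fst + lp.single 1 k s, x.snd + u)).snd = -u := by
        rw [WithLp.sub_snd]; simp only [WithLp.toLp_snd]; abel
      rw [e1, e2, norm_neg, norm_neg, lp.norm_single (by norm_num),
        Real.norm_of_nonneg (by linarith), hρ2]
      exact hsu
    exact ((pow_left_inj₀ (norm_nonneg _) (by linarith) (by norm_num)).1 e).le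
  by_cases hbad : ∃ y ∈ G, (‖x.fst - y.fst‖ + (2 / √3 : ℝ)) ^ 2 + ‖x.snd - y.snd‖ ^ 2 < 4
  · obtain ⟨v, hv, hvb⟩ := hbad
    set R : ℝ := ‖x.fst - v.fst‖ with hRdef
    set V : Y := x.snd - v.snd with hVdef
    set β : ℝ := ‖V‖ with hβdef
    have hR0 : 0 ≤ R := norm_nonneg _
    have hβ0 : 0 ≤ β := norm_nonneg _
    have hRβ : 4 / 3 ≤ R ^ 2 + β ^ 2 := hunc v hv
    have hRr : R < (2 / √3 : ℝ) / 2 := by
      by_contra hlt
      push Not at hlt
      have := mul_le_mul_of_nonneg_right hlt (by linarith : (0 : ℝ) ≤ (2 / √3 : ℝ))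
      nlinarith
    obtain ⟨s, τ, hs1, hτ0, hst, hse⟩ := exists_st R β hR0 hRr hβ0 hRβ hvb
    have hR3 : R ^ 2 ≤ 1 / 3 := by nlinarith
    obtain ⟨T, hT0, hT2⟩ : ∃ T : ℝ, 0 ≤ T ∧ T ^ 2 = 4 / 3 - R ^ 2 :=
      ⟨√(4 / 3 - R ^ 2), Real.sqrt_nonneg _, Real.sq_sqrt (by linarith)⟩
    have hTβ : T ≤ β := (abs_le_of_sq_le_sq' (by linarith) hβ0).2
    have hβ1 : 0 < β := by nlinarith
    obtain ⟨hsc, hτs⟩ := rot_le R β s τ T q hq2 hq0 hR0 hR3 hT0 (by linarith) hTβ hs1 hτ0 hst hse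
    have hsr : s ≤ (2 / √3 : ℝ) := (abs_le_of_sq_le_sq' (by nlinarith) (by linarith)).2
    -- lower bound for the other points
    have hother : ∀ y ∈ G, y ≠ v → 1 - R ≤ ‖x.fst - y.fst‖ := by
      intro y hy hyv
      have := fst_dist hP x.fst hy hv hyv
      linarith
    have hsnd3 : ∀ y ∈ G, y ≠ v → R + ‖x.fst - y.fst‖ < (2 / √3 : ℝ) → ‖V - (x.snd - y.snd)‖ ^ 2 ≤ 3 := by
      intro y hy hyv hlt
      have h1 := (hP (y - v) (sub_mem hy hv) (sub_ne_zero.2 hyv)).2.2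
      rw [WithLp.sub_fst, WithLp.sub_snd] at h1
      have e : V - (x.snd - y.snd) = y.snd - v.snd := by rw [hVdef]; abel
      rw [e]
      apply h1
      have : y.fst - v.fst = (x.fst - v.fst) - (x.fst - y.fst) := by abel
      rw [this]
      linarith [norm_sub_le (x.fst - v.fst) (x.fst - y.fst)]
    -- the generator above `v`
    have hmain : (R ≤ 1 / 4 ∨ ∀ y ∈ G, y ≠ v → (2 / √3 : ℝ) ≤ R + ‖x.fst - y.fst‖) →
        ∃ G' : AddSubgroup (WithLp 2 (L1 × Y)), G ≤ G' ∧ Inv G' ∧ G' ≤ Vk Y (k + 1) ∧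
          ∃ y ∈ G', ‖x - y‖ ≤ (2 / √3 : ℝ) := by
      intro hcase
      set u : Y := (τ / β) • V with hu
      have hun : ‖u‖ = τ := by
        rw [hu, norm_smul, Real.norm_of_nonneg (by positivity), ← hβdef]
        field_simp
      apply hend s u hs1 (by rw [hun]; exact hst)
      intro y hy
      by_cases hyv : y = v
      · subst hyv
        have e : (x.snd - y.snd) + u = (1 + τ / β) • V := by
          rw [add_smul, one_smul, ← hu]
        have e' : ‖(x.snd - y.snd) + u‖ = β + τ := by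
          rw [e, norm_smul, Real.norm_of_nonneg (by positivity), ← hβdef]
          field_simp
        rw [e']
        refine ⟨hse.ge, fun _ => ?_⟩
        nlinarith
      · have hy1 := hother y hy hyv
        refine ⟨?_, fun hlt => absurd hlt (by linarith)⟩
        rcases le_or_gt (2 / √3 : ℝ) (R + ‖x.fst - y.fst‖) with hge | hlt
        · have hb := caseBi q s τ ‖x.fst - y.fst‖ ‖x.snd - y.snd‖ hq2 hq0 hs1 hτ0 hst
            (by nlinarith) (norm_nonneg _) (hunc y hy)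
          have h5 : (‖x.snd - y.snd‖ - τ) ^ 2 ≤ ‖x.snd - y.snd + u‖ ^ 2 := by
            have h6 : |‖x.snd - y.snd‖ - ‖u‖| ≤ ‖x.snd - y.snd + u‖ := by
              have := abs_norm_sub_norm_le (x.snd - y.snd) (-u)
              rwa [norm_neg, sub_neg_eq_add] at this
            rw [hun] at h6
            rw [← sq_abs (‖x.snd - y.snd‖ - τ)]
            exact pow_le_pow_left₀ (abs_nonneg _) h6 2
          linarith
        · have hR4 : R ≤ 1 / 4 := by
            rcases hcase with h | h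
            · exact h
            · exact absurd (h y hy hyv) (by linarith)
          rcases le_or_gt 1 ‖x.fst - y.fst‖ with h1 | h1
          · have h9 : (2 : ℝ) ^ 2 ≤ (‖x.fst - y.fst‖ + s) ^ 2 :=
              pow_le_pow_left₀ (by norm_num) (by linarith) 2
            have h10 := sq_nonneg ‖x.snd - y.snd + u‖
            norm_num at h9
            linarith
          · have h3 := hsnd3 y hy hyv hlt
            rw [norm_sub_sq_real, ← hβdef] at h3
            have hB := caseBii q R T β s τ ‖x.fst - y.fst‖ (‖x.snd - y.snd‖ ^ 2)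
              (inner ℝ V (x.snd - y.snd)) hq2 hq0 hR0 hR4 hT0 (by linarith) hTβ hs1 hτ0 hst hsc
              hτs hy1 h1.le (hunc y hy) (by linarith)
            have e : ‖x.snd - y.snd + u‖ ^ 2 = ‖x.snd - y.snd‖ ^ 2 + τ ^ 2 +
                2 * (τ / β) * inner ℝ V (x.snd - y.snd) := by
              rw [norm_add_sq_real, hun, hu, inner_smul_right, real_inner_comm]; ring
            rw [e]; exact hB
    by_cases hR4 : R ≤ 1 / 4
    · exact hmain (Or.inl hR4)
    · by_cases hall : ∀ y ∈ G, y ≠ v → (2 / √3 : ℝ) ≤ R + ‖x.fst - y.fst‖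
      · exact hmain (Or.inr hall)
      · push Not at hR4 hall
        obtain ⟨w, hw, hwv, hwR⟩ := hall
        have hw1 := hother w hw hwv
        obtain ⟨u, hu1, hu2, hu3⟩ := caseC_exists V (x.snd - w.snd) R ‖x.fst - w.fst‖ hR4.le
          (by linarith) (by linarith) (by linarith) hRβ (hunc w hw) (hsnd3 w hw hwv hwR)
        apply hend (27 / 25) u (by norm_num) hu1
        intro y hy
        by_cases hyv : y = v
        · subst hyv
          exact ⟨hu2, fun hlt => absurd hlt (by linarith)⟩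
        by_cases hyw : y = w
        · subst hyw
          exact ⟨hu3, fun hlt => absurd hlt (by linarith)⟩
        have hy1 : 23 / 25 ≤ ‖x.fst - y.fst‖ := by
          by_contra hlt
          push Not at hlt
          have := hI.2 x.fst v w y hv hw hy (Ne.symm hwv) (Ne.symm hyv) (Ne.symm hyw) (23 / 25)
            (by linarith) (by linarith) hlt.le
          linarith
        refine ⟨?_, fun hlt => absurd hlt (by linarith)⟩
        have h9 : (2 : ℝ) ^ 2 ≤ (‖x.fst - y.fst‖ + 27 / 25) ^ 2 :=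
          pow_le_pow_left₀ (by norm_num) (by linarith) 2
        have h10 := sq_nonneg ‖x.snd - y.snd + u‖
        norm_num at h9
        linarith
  · push Not at hbad
    apply hend (2 / √3 : ℝ) 0 hρ1 (by simp [hρ2])
    intro y hy
    rw [add_zero]
    exact ⟨hbad y hy, fun hlt => absurd hlt (by linarith [norm_nonneg (x.fst - y.fst)])⟩

theorem upper [TopologicalSpace.SeparableSpace Y] : ∃ D : AddSubgroup (WithLp 2 (L1 × Y)),
    Separated (D : Set (WithLp 2 (L1 × Y))) ∧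
      ∀ ε > 0, DenseAt ((2 / √3 : ℝ) + ε) (D : Set (WithLp 2 (L1 × Y))) := by
  apply recursion (2 / √3 : ℝ) Inv ⊥
  · refine ⟨fun g hg hg0 => absurd (AddSubgroup.mem_bot.1 hg) hg0, ?_⟩
    intro x f g h hf hg _ hfg
    rw [AddSubgroup.mem_bot.1 hf, AddSubgroup.mem_bot.1 hg] at hfg
    exact absurd rfl hfg
  · exact bot_le
  · intro G hG g hg hg0; exact (hG.1 g hg hg0).2.1
  · intro k G hG hGV x hx
    exact step k G hG hGV x hx

theorem value [TopologicalSpace.SeparableSpace Y] [Nontrivial Y] :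
    gamma (WithLp 2 (L1 × Y)) = (2 / √3 : ℝ) ∧ gammaStar (WithLp 2 (L1 × Y)) = (2 / √3 : ℝ) := by
  have hA := gamma_le_star (2 / √3 : ℝ) (upper (Y := Y))
  have hB := gammaStar_le (2 / √3 : ℝ) (upper (Y := Y))
  have hC := le_gamma (2 / √3 : ℝ) (2 / √3 : ℝ) (upper (Y := Y)) (fun D r => lower (Y := Y) D r)
  exact ⟨le_antisymm (hA.trans hB) hC, le_antisymm hB (hC.trans hA)⟩

end Pool.Agent.L5helper81.PC
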