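import Pool.Agent.Results.MP_d84bc5_an.PackingCovering

set_option autoImplicit false

/-! Elementary inequalities behind the upper bound `γ*(ℓ₁ ⊕₂ Y) ≤ 2/√3`. -/

open Pool.Agent.Results.MP_d84bc5_an.PackingCovering

namespace Pool.Agent.L5helper81.PC

lemma rho_lt : (2 / √3 : ℝ) < 231 / 200 := by
  have h := rho_sq
  have h1 := one_le_rho
  nlinarith

lemma lt_rho : 23 / 20 < (2 / √3 : ℝ) := by
  have h := rho_sq
  have h1 := one_le_rho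
  nlinarith

/-- The generator when there is an obstructing point. -/
lemma exists_st (R β : ℝ) (hR0 : 0 ≤ R) (hR : R < (2 / √3 : ℝ) / 2) (hβ : 0 ≤ β)
    (h1 : 4 / 3 ≤ R ^ 2 + β ^ 2) (h2 : (R + (2 / √3 : ℝ)) ^ 2 + β ^ 2 < 4) :
    ∃ s τ : ℝ, 1 ≤ s ∧ 0 ≤ τ ∧ s ^ 2 + τ ^ 2 = 4 / 3 ∧ (R + s) ^ 2 + (β + τ) ^ 2 = 4 := by
  have hρ2 := rho_sq
  have hρ1 := one_le_rho
  have hρ3 := rho_lt
  have hc : ContinuousOn (fun s : ℝ => (R + s) ^ 2 + (β + √(4 / 3 - s ^ 2)) ^ 2)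
      (Set.Icc 1 (2 / √3 : ℝ)) := by fun_prop
  have hiv := intermediate_value_Icc' hρ1 hc
  have h4 : (4 : ℝ) ∈ Set.Icc ((R + (2 / √3 : ℝ)) ^ 2 + (β + √(4 / 3 - (2 / √3 : ℝ) ^ 2)) ^ 2)
      ((R + 1) ^ 2 + (β + √(4 / 3 - 1 ^ 2)) ^ 2) := by
    constructor
    · rw [hρ2, sub_self, Real.sqrt_zero, add_zero]; linarith
    · set w : ℝ := √(4 / 3 - 1 ^ 2) with hw
      have hw0 : 0 ≤ w := Real.sqrt_nonneg _
      have hw2 : w ^ 2 = 1 / 3 := by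
        rw [hw, Real.sq_sqrt (by norm_num)]; norm_num
      have hR1 : R < 1 := by linarith
      have hk : 2 / 3 - R ≤ β * w := by
        by_contra hlt
        push Not at hlt
        have h5 : (β * w) ^ 2 < (2 / 3 - R) ^ 2 :=
          pow_lt_pow_left₀ hlt (mul_nonneg hβ hw0) (by norm_num)
        rw [mul_pow, hw2] at h5
        nlinarith
      nlinarith
  obtain ⟨s, hs, hse⟩ := hiv h4
  refine ⟨s, √(4 / 3 - s ^ 2), hs.1, Real.sqrt_nonneg _, ?_, hse⟩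
  rw [Real.sq_sqrt]
  · ring
  · nlinarith [hs.1, hs.2]

/-- Comparison with the rotated vector. -/
lemma rot_le (R β s τ T q : ℝ) (hq : q ^ 2 = 3) (hq0 : 0 < q) (hR0 : 0 ≤ R) (hR : R ^ 2 ≤ 1 / 3)
    (hT : 0 ≤ T) (hRT : R ^ 2 + T ^ 2 = 4 / 3) (hTβ : T ≤ β) (hs : 1 ≤ s) (hτ : 0 ≤ τ)
    (hst : s ^ 2 + τ ^ 2 = 4 / 3) (he : (R + s) ^ 2 + (β + τ) ^ 2 = 4) :
    R / 2 + q / 2 * T ≤ s ∧ τ ≤ T / 2 - q / 2 * R := by
  have hin : R * s + T * τ ≤ 2 / 3 := by nlinarith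
  set c₀ := R / 2 + q / 2 * T with hc₀
  set s₀ := T / 2 - q / 2 * R with hs₀
  have hcs : c₀ ^ 2 + s₀ ^ 2 = 4 / 3 := by
    have : c₀ ^ 2 + s₀ ^ 2 = (R ^ 2 + T ^ 2) * (1 + q ^ 2) / 4 := by rw [hc₀, hs₀]; ring
    rw [this, hRT, hq]; norm_num
  have hin2 : R * c₀ + T * s₀ = 2 / 3 := by
    have : R * c₀ + T * s₀ = (R ^ 2 + T ^ 2) / 2 := by rw [hc₀, hs₀]; ring
    rw [this, hRT]; norm_num
  have hT1 : 1 ≤ T := by nlinarith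
  have hqR : q * R ≤ 1 := by
    have : (q * R) ^ 2 ≤ 1 ^ 2 := by rw [mul_pow, hq]; linarith
    exact abs_le_of_sq_le_sq' this (by norm_num) |>.2
  have hs₀0 : 0 ≤ s₀ := by rw [hs₀]; nlinarith
  have hc₀0 : 0 ≤ c₀ := by rw [hc₀]; positivity
  have hτ1 : τ ≤ 1 := by nlinarith
  have hR1 : R ≤ 1 := by nlinarith
  have hs₀1 : s₀ ≤ 1 := by
    have hT2 : T ≤ 2 := by nlinarith
    rw [hs₀]; nlinarith [mul_nonneg hq0.le hR0]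
  have key : τ ≤ s₀ := by
    by_contra hlt
    push Not at hlt
    have h1 : s < c₀ := by
      by_contra h2
      push Not at h2
      nlinarith
    have h2 : (τ - s₀) * T ≤ (c₀ - s) * R := by nlinarith
    have h3 : (c₀ - s) * (c₀ + s) = (τ - s₀) * (τ + s₀) := by nlinarith
    have h4 : (τ - s₀) * T * (c₀ + s) ≤ (c₀ - s) * R * (c₀ + s) :=
      mul_le_mul_of_nonneg_right h2 (by linarith)
    have h5 : (τ - s₀) * (T * (c₀ + s) - R * (τ + s₀)) ≤ 0 := by nlinarith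
    have h6 : 0 < T * (c₀ + s) - R * (τ + s₀) := by
      have a1 : 2 < T * (c₀ + s) := by nlinarith
      have a2 : R * (τ + s₀) ≤ 2 := by nlinarith
      linarith
    have : 0 < (τ - s₀) * (T * (c₀ + s) - R * (τ + s₀)) := mul_pos (by linarith) h6
    linarith
  refine ⟨?_, key⟩
  by_contra hlt
  push Not at hlt
  nlinarith

lemma caseBi (q s τ r W : ℝ) (hq : q ^ 2 = 3) (hq0 : 0 < q) (hs : 1 ≤ s) (hτ : 0 ≤ τ)
    (hst : s ^ 2 + τ ^ 2 = 4 / 3) (hr : s / 2 + q / 2 * τ ≤ r) (hW : 0 ≤ W)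
    (hrW : 4 / 3 ≤ r ^ 2 + W ^ 2) : 4 ≤ (r + s) ^ 2 + (W - τ) ^ 2 := by
  set r₀ := s / 2 + q / 2 * τ with hr₀
  set w₀ := q / 2 * s - τ / 2 with hw₀
  have h1 : r₀ ^ 2 + w₀ ^ 2 = 4 / 3 := by
    have : r₀ ^ 2 + w₀ ^ 2 = (s ^ 2 + τ ^ 2) * (1 + q ^ 2) / 4 := by rw [hr₀, hw₀]; ring
    rw [this, hst, hq]; norm_num
  have h2 : r₀ * s - w₀ * τ = 2 / 3 := by
    have : r₀ * s - w₀ * τ = (s ^ 2 + τ ^ 2) / 2 := by rw [hr₀, hw₀]; ring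
    rw [this, hst]; norm_num
  have hqs : q * τ ≤ s := by
    have : (q * τ) ^ 2 ≤ s ^ 2 := by rw [mul_pow, hq]; nlinarith
    exact abs_le_of_sq_le_sq' this (by linarith) |>.2
  have hw₀τ : τ ≤ w₀ := by
    have h3 : q * (q * τ) ≤ q * s := mul_le_mul_of_nonneg_left hqs hq0.le
    have h4 : q * (q * τ) = 3 * τ := by rw [← mul_assoc, ← sq, hq]
    rw [hw₀]; linarith
  have hr₀0 : 0 ≤ r₀ := by rw [hr₀]; positivity
  rcases le_or_gt w₀ W with h | h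
  · have a1 : (r₀ + s) ^ 2 ≤ (r + s) ^ 2 := pow_le_pow_left₀ (by linarith) (by linarith) 2
    have a2 : (w₀ - τ) ^ 2 ≤ (W - τ) ^ 2 := pow_le_pow_left₀ (by linarith) (by linarith) 2
    nlinarith
  · have a1 : r₀ * s ≤ r * s := mul_le_mul_of_nonneg_right hr (by linarith)
    have a2 : W * τ ≤ w₀ * τ := mul_le_mul_of_nonneg_right h.le hτ
    nlinarith

lemma poly_Bii (R : ℝ) (hR0 : 0 ≤ R) (hR : R ≤ 1 / 4) :
    (4 - 3 * R ^ 2) * (1 - R + R ^ 2) ^ 2 ≤ (2 - R - 3 * R ^ 2 + 3 * R ^ 3) ^ 2 := by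
  have h1 : (0 : ℝ) ≤ 1 - 5 * R + 5 * R ^ 2 := by nlinarith
  have h2 : (0 : ℝ) ≤ 2 - 6 * R + 3 * R ^ 2 := by nlinarith
  have h3 : 0 ≤ 4 * R * ((1 - 5 * R + 5 * R ^ 2) + R ^ 3 * (2 - 6 * R + 3 * R ^ 2)) := by
    positivity
  nlinarith

lemma caseBii_core (q R T : ℝ) (hq : q ^ 2 = 3) (hq0 : 0 < q) (hR0 : 0 ≤ R) (hR : R ≤ 1 / 4)
    (hT : 0 ≤ T) (hRT : R ^ 2 + T ^ 2 = 4 / 3) :
    0 ≤ 2 * (1 - R) * (R / 2 + q / 2 * T) * T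
      - (T / 2 - q / 2 * R) * (4 / 3 - 2 * R + 2 * R ^ 2) - 4 / 3 * T := by
  have hp := poly_Bii R hR0 hR
  have hT2 : T ^ 2 = 4 / 3 - R ^ 2 := by linarith
  have hA0 : 0 ≤ q * (4 / 3 - 2 / 3 * R - 2 * R ^ 2 + 2 * R ^ 3) := by
    apply mul_nonneg hq0.le
    nlinarith [pow_nonneg hR0 3]
  have hB : (2 * T * (1 - R + R ^ 2)) ^ 2 ≤ (q * (4 / 3 - 2 / 3 * R - 2 * R ^ 2 + 2 * R ^ 3)) ^ 2 := by
    have e1 : (2 * T * (1 - R + R ^ 2)) ^ 2 = 4 * T ^ 2 * (1 - R + R ^ 2) ^ 2 := by ring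
    have e2 : (q * (4 / 3 - 2 / 3 * R - 2 * R ^ 2 + 2 * R ^ 3)) ^ 2 =
        q ^ 2 * (4 / 9) * (2 - R - 3 * R ^ 2 + 3 * R ^ 3) ^ 2 := by ring
    rw [e1, e2, hq, hT2]
    nlinarith
  have hle := (abs_le_of_sq_le_sq' hB hA0).2
  have e : 2 * (1 - R) * (R / 2 + q / 2 * T) * T
      - (T / 2 - q / 2 * R) * (4 / 3 - 2 * R + 2 * R ^ 2) - 4 / 3 * T =
      q * ((1 - R) * T ^ 2 + R * (2 / 3 - R + R ^ 2)) - 2 * T * (1 - R + R ^ 2) := by ring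
  rw [e, hT2]
  have e' : q * ((1 - R) * (4 / 3 - R ^ 2) + R * (2 / 3 - R + R ^ 2)) =
      q * (4 / 3 - 2 / 3 * R - 2 * R ^ 2 + 2 * R ^ 3) := by ring
  rw [e']; linarith

lemma caseBii (q R T β s τ b Z P : ℝ) (hq : q ^ 2 = 3) (hq0 : 0 < q) (hR0 : 0 ≤ R)
    (hR : R ≤ 1 / 4) (hT : 0 ≤ T) (hRT : R ^ 2 + T ^ 2 = 4 / 3) (hTβ : T ≤ β) (hs : 1 ≤ s)
    (hτ : 0 ≤ τ) (hst : s ^ 2 + τ ^ 2 = 4 / 3) (hsc : R / 2 + q / 2 * T ≤ s)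
    (hτs : τ ≤ T / 2 - q / 2 * R) (hb : 1 - R ≤ b) (hb1 : b ≤ 1) (hZ : 4 / 3 ≤ b ^ 2 + Z)
    (hP : β ^ 2 + Z - 3 ≤ 2 * P) :
    4 ≤ (b + s) ^ 2 + (Z + τ ^ 2 + 2 * (τ / β) * P) := by
  have hcore := caseBii_core q R T hq hq0 hR0 hR hT hRT
  have hT1 : 1 ≤ T := by nlinarith
  have hβ0 : 0 < β := by linarith
  have hτ1 : τ ≤ 1 := by nlinarith
  -- reduce to `G ≥ 0`
  have hG1 : 0 ≤ 2 * (1 - R) * s * T - τ * (4 / 3 - 2 * R + 2 * R ^ 2) - 4 / 3 * T := by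
    have a1 : 2 * (1 - R) * (R / 2 + q / 2 * T) * T ≤ 2 * (1 - R) * s * T := by
      apply mul_le_mul_of_nonneg_right _ hT
      exact mul_le_mul_of_nonneg_left hsc (by linarith)
    have a2 : τ * (4 / 3 - 2 * R + 2 * R ^ 2) ≤
        (T / 2 - q / 2 * R) * (4 / 3 - 2 * R + 2 * R ^ 2) := by
      apply mul_le_mul_of_nonneg_right hτs
      nlinarith
    linarith
  have hG2 : 0 ≤ 2 * b * s * T + τ * T ^ 2 - τ * (5 / 3 + b ^ 2) - 4 / 3 * T := by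
    have e1 : 2 * (1 - R) * s * T - τ * (4 / 3 - 2 * R + 2 * R ^ 2) - 4 / 3 * T =
        2 * (1 - R) * s * T + τ * (4 / 3 - R ^ 2) - τ * (5 / 3 + (1 - R) ^ 2) - 4 / 3 * T := by ring
    rw [e1] at hG1
    have hT2 : T ^ 2 = 4 / 3 - R ^ 2 := by linarith
    rw [hT2]
    have h3 : 0 ≤ (b - (1 - R)) * (2 * s * T - τ * (b + (1 - R))) := by
      apply mul_nonneg (by linarith)
      have : τ * (b + (1 - R)) ≤ 2 := by nlinarith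
      nlinarith
    nlinarith
  have hG3 : 0 ≤ 2 * b * s * β + τ * β ^ 2 - τ * (5 / 3 + b ^ 2) - 4 / 3 * β := by
    have h3 : 0 ≤ (β - T) * (2 * b * s + τ * (β + T) - 4 / 3) := by
      apply mul_nonneg (by linarith)
      have : 3 / 2 ≤ 2 * b * s := by nlinarith
      have : 0 ≤ τ * (β + T) := by positivity
      linarith
    nlinarith
  have hG4 : 0 ≤ 2 * b * s + τ / β * (β ^ 2 - (5 / 3 + b ^ 2)) - 4 / 3 := by
    have e : (2 * b * s + τ / β * (β ^ 2 - (5 / 3 + b ^ 2)) - 4 / 3) =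
        (2 * b * s * β + τ * β ^ 2 - τ * (5 / 3 + b ^ 2) - 4 / 3 * β) / β := by
      field_simp
      ring
    rw [e]; positivity
  have hk : 0 ≤ τ / β := by positivity
  have h5 : τ / β * (β ^ 2 + Z - 3) ≤ τ / β * (2 * P) := mul_le_mul_of_nonneg_left hP hk
  have h6 : τ / β * (β ^ 2 + (4 / 3 - b ^ 2) - 3) ≤ τ / β * (β ^ 2 + Z - 3) :=
    mul_le_mul_of_nonneg_left (by linarith) hk
  have e7 : τ / β * (β ^ 2 + (4 / 3 - b ^ 2) - 3) = τ / β * (β ^ 2 - (5 / 3 + b ^ 2)) := by ring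
  nlinarith

lemma sq_diff_le (a b : ℝ) (ha : 1 / 4 ≤ a) (hb : 1 / 4 ≤ b) (hab : a + b ≤ 231 / 200) :
    (b - a) ^ 2 ≤ 43 / 100 ∧ a ^ 2 + b ^ 2 ≤ 89 / 100 := by
  have h1 : 0 ≤ (a - 1 / 4) * (b - 1 / 4) := mul_nonneg (by linarith) (by linarith)
  have h2 : (a + b) ^ 2 ≤ 231 / 200 * (a + b) := by nlinarith
  constructor <;> nlinarith

lemma caseC_pos (a b l : ℝ) (ha : 1 / 4 ≤ a) (hb : 1 / 4 ≤ b) (hab : a + b ≤ 231 / 200) :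
    0 < 4 / 3 - ((1 - l) * a ^ 2 + l * b ^ 2) - 3 * (l * (1 - l)) := by
  obtain ⟨-, h1⟩ := sq_diff_le a b ha hb hab
  have h2 : (b ^ 2 - a ^ 2) ^ 2 ≤ (a ^ 2 + b ^ 2) ^ 2 := by nlinarith [sq_nonneg (a * b)]
  have h3 : (a ^ 2 + b ^ 2) ^ 2 ≤ 1 := by nlinarith [sq_nonneg a, sq_nonneg b]
  nlinarith [sq_nonneg (6 * l - (b ^ 2 - a ^ 2 + 3))]

lemma caseC_phi_aux (m n w D : ℝ) (hn0 : 0 ≤ n) (hn : n ≤ 1 / 2) (hm : 1 / 4 + n / 2 ≤ m)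
    (hm1 : m ≤ 50 / 81) (hw : w = n * (1 - n)) (hD : D ≤ 43 / 100) (hD0 : 0 ≤ D) :
    0 < 4 / 3 * (1 - (27 / 25) ^ 2 + 27 / 25 * m - m ^ 2)
      - (4 / 3 - (27 / 25) ^ 2) * (w * (3 + D)) := by
  have hw0 : 0 ≤ w := by rw [hw]; nlinarith
  have hw1 : w ≤ 1 / 4 := by rw [hw]; nlinarith [sq_nonneg (n - 1 / 2)]
  have h1 : w * (3 + D) ≤ w * (343 / 100) := mul_le_mul_of_nonneg_left (by linarith) hw0
  rcases le_or_gt (m + (1 / 4 + n / 2)) (27 / 25) with h | h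
  · have h2 : 0 ≤ (m - (1 / 4 + n / 2)) * (27 / 25 - m - (1 / 4 + n / 2)) :=
      mul_nonneg (by linarith) (by linarith)
    rw [hw] at h1 ⊢
    nlinarith [sq_nonneg (n - 7 / 18)]
  · have h2 : 29 / 50 ≤ m := by linarith
    have h3 : 0 ≤ (m - 29 / 50) * (50 / 81 - m) := mul_nonneg (by linarith) (by linarith)
    nlinarith

lemma caseC_phi (a b l : ℝ) (ha : 1 / 4 ≤ a) (hb : 1 / 4 ≤ b) (hab1 : 1 ≤ a + b)
    (hab : a + b ≤ 231 / 200) (hl0 : 0 ≤ l) (hl1 : l ≤ 1)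
    (h : 27 / 25 * ((1 - l) * a + l * b) ≤ 2 / 3) :
    (2 / 3 - 27 / 25 * ((1 - l) * a + l * b)) ^ 2 <
      (4 / 3 - (27 / 25) ^ 2) * (4 / 3 - ((1 - l) * a ^ 2 + l * b ^ 2) - 3 * (l * (1 - l))) := by
  obtain ⟨hD, -⟩ := sq_diff_le a b ha hb hab
  set m := (1 - l) * a + l * b with hm
  have hid : (4 / 3 - (27 / 25) ^ 2) * (4 / 3 - ((1 - l) * a ^ 2 + l * b ^ 2) - 3 * (l * (1 - l)))
      - (2 / 3 - 27 / 25 * m) ^ 2 = 4 / 3 * (1 - (27 / 25) ^ 2 + 27 / 25 * m - m ^ 2)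
      - (4 / 3 - (27 / 25) ^ 2) * ((l * (1 - l)) * (3 + (b - a) ^ 2)) := by
    rw [hm]; ring
  have hm1 : m ≤ 50 / 81 := by linarith
  have key : 0 < 4 / 3 * (1 - (27 / 25) ^ 2 + 27 / 25 * m - m ^ 2)
      - (4 / 3 - (27 / 25) ^ 2) * ((l * (1 - l)) * (3 + (b - a) ^ 2)) := by
    rcases le_total l (1 / 2) with h2 | h2
    · refine caseC_phi_aux m l _ _ hl0 h2 ?_ hm1 rfl hD (sq_nonneg _)
      rw [hm]; nlinarith
    · refine caseC_phi_aux m (1 - l) _ _ (by linarith) (by linarith) ?_ hm1 (by ring) hD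
        (sq_nonneg _)
      rw [hm]; nlinarith
  linarith

end Pool.Agent.L5helper81.PC
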