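import Pool.Agent.L5helper81.PC.Real

set_option autoImplicit false

/-! The recursive step for `ℓ₁ ⊕₂ Y`, `Y` a real inner product space. -/

open scoped ENNReal
open WithLp Filter Topology
open Pool.Agent.Results.MP_d84bc5_an.PackingCovering

namespace Pool.Agent.L5helper81.PC

section two

variable {Y : Type*} [NormedAddCommGroup Y] [InnerProductSpace ℝ Y]

lemma norm_comb_sq (V W : Y) (l : ℝ) :
    ‖(1 - l) • V + l • W‖ ^ 2 =
      (1 - l) * ‖V‖ ^ 2 + l * ‖W‖ ^ 2 - l * (1 - l) * ‖V - W‖ ^ 2 := by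
  rw [norm_add_sq_real, norm_sub_sq_real, norm_smul, norm_smul, inner_smul_left, inner_smul_right,
    mul_pow, mul_pow, Real.norm_eq_abs, Real.norm_eq_abs, sq_abs, sq_abs]
  simp only [conj_trivial]
  ring

lemma caseC_exists (V W : Y) (a b : ℝ) (ha : 1 / 4 ≤ a) (hb : 1 / 4 ≤ b) (hab1 : 1 ≤ a + b)
    (hab : a + b ≤ 231 / 200) (h1 : 4 / 3 ≤ a ^ 2 + ‖V‖ ^ 2) (h2 : 4 / 3 ≤ b ^ 2 + ‖W‖ ^ 2)
    (h3 : ‖V - W‖ ^ 2 ≤ 3) :
    ∃ u : Y, (27 / 25 : ℝ) ^ 2 + ‖u‖ ^ 2 = 4 / 3 ∧ 4 ≤ (a + 27 / 25) ^ 2 + ‖V + u‖ ^ 2 ∧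
      4 ≤ (b + 27 / 25) ^ 2 + ‖W + u‖ ^ 2 := by
  set κ : ℝ := √(4 / 3 - (27 / 25) ^ 2) with hκ
  have hκ2 : κ ^ 2 = 4 / 3 - (27 / 25) ^ 2 := by rw [hκ, Real.sq_sqrt (by norm_num)]
  have hκ0 : 0 < κ := by rw [hκ]; apply Real.sqrt_pos.2; norm_num
  set e : ℝ → Y := fun l => (1 - l) • V + l • W with he
  have hesq : ∀ l ∈ Set.Icc (0 : ℝ) 1,
      4 / 3 - ((1 - l) * a ^ 2 + l * b ^ 2) - 3 * (l * (1 - l)) ≤ ‖e l‖ ^ 2 := by
    intro l hl
    rw [he]; simp only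
    rw [norm_comb_sq]
    have a1 : (1 - l) * (4 / 3 - a ^ 2) ≤ (1 - l) * ‖V‖ ^ 2 :=
      mul_le_mul_of_nonneg_left (by linarith) (by linarith [hl.2])
    have a2 : l * (4 / 3 - b ^ 2) ≤ l * ‖W‖ ^ 2 :=
      mul_le_mul_of_nonneg_left (by linarith) hl.1
    have a3 : l * (1 - l) * ‖V - W‖ ^ 2 ≤ l * (1 - l) * 3 :=
      mul_le_mul_of_nonneg_left h3 (mul_nonneg hl.1 (by linarith [hl.2]))
    nlinarith
  have hepos : ∀ l ∈ Set.Icc (0 : ℝ) 1, 0 < ‖e l‖ := by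
    intro l hl
    have h := lt_of_lt_of_le (caseC_pos a b l ha hb hab) (hesq l hl)
    have h0 := norm_nonneg (e l)
    rcases h0.lt_or_eq with h' | h'
    · exact h'
    · rw [← h'] at h; norm_num at h
  set n1 : ℝ := (8 / 3 - a ^ 2 - ‖V‖ ^ 2 - 2 * a * (27 / 25)) / 2 with hn1
  set n2 : ℝ := (8 / 3 - b ^ 2 - ‖W‖ ^ 2 - 2 * b * (27 / 25)) / 2 with hn2
  have hdual : ∀ l ∈ Set.Icc (0 : ℝ) 1, (1 - l) * n1 + l * n2 < κ * ‖e l‖ := by
    intro l hl
    have hp := hepos l hl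
    rcases lt_or_ge ((1 - l) * n1 + l * n2) 0 with hN | hN
    · exact hN.trans_le (by positivity)
    · have a1 : (1 - l) * (4 / 3 - a ^ 2) ≤ (1 - l) * ‖V‖ ^ 2 :=
        mul_le_mul_of_nonneg_left (by linarith) (by linarith [hl.2])
      have a2 : l * (4 / 3 - b ^ 2) ≤ l * ‖W‖ ^ 2 :=
        mul_le_mul_of_nonneg_left (by linarith) hl.1
      have hN2 : (1 - l) * n1 + l * n2 ≤ 2 / 3 - 27 / 25 * ((1 - l) * a + l * b) := by
        rw [hn1, hn2]; nlinarith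
      have hphi := caseC_phi a b l ha hb hab1 hab hl.1 hl.2 (by linarith)
      have h5 : ((1 - l) * n1 + l * n2) ^ 2 ≤ (2 / 3 - 27 / 25 * ((1 - l) * a + l * b)) ^ 2 :=
        pow_le_pow_left₀ hN hN2 2
      have h6 : (4 / 3 - (27 / 25) ^ 2) *
          (4 / 3 - ((1 - l) * a ^ 2 + l * b ^ 2) - 3 * (l * (1 - l))) ≤ (κ * ‖e l‖) ^ 2 := by
        rw [mul_pow, hκ2]
        exact mul_le_mul_of_nonneg_left (hesq l hl) (by norm_num)
      exact lt_of_pow_lt_pow_left₀ 2 (by positivity) (by linarith)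
  have hcomb : ∀ l ∈ Set.Icc (0 : ℝ) 1,
      0 < (1 - l) * (κ * inner ℝ V (e l) - n1 * ‖e l‖) + l * (κ * inner ℝ W (e l) - n2 * ‖e l‖) := by
    intro l hl
    have h5 : (1 - l) * inner ℝ V (e l) + l * inner ℝ W (e l) = ‖e l‖ ^ 2 := by
      rw [← real_inner_self_eq_norm_sq]
      conv_rhs => rw [he]
      simp only
      rw [inner_add_left, inner_smul_left, inner_smul_left]
      simp only [conj_trivial, he]
    have h6 : (1 - l) * (κ * inner ℝ V (e l) - n1 * ‖e l‖) + l * (κ * inner ℝ W (e l) - n2 * ‖e l‖)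
        = ‖e l‖ * (κ * ‖e l‖ - ((1 - l) * n1 + l * n2)) := by
      have : (1 - l) * (κ * inner ℝ V (e l) - n1 * ‖e l‖) + l * (κ * inner ℝ W (e l) - n2 * ‖e l‖)
        = κ * ((1 - l) * inner ℝ V (e l) + l * inner ℝ W (e l)) -
          ((1 - l) * n1 + l * n2) * ‖e l‖ := by ring
      rw [this, h5]; ring
    rw [h6]
    exact mul_pos (hepos l hl) (by linarith [hdual l hl])
  have hec : Continuous e := by rw [he]; fun_prop
  obtain ⟨l, hl, hg1, hg2⟩ : ∃ l ∈ Set.Icc (0 : ℝ) 1, 0 ≤ κ * inner ℝ V (e l) - n1 * ‖e l‖ ∧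
      0 ≤ κ * inner ℝ W (e l) - n2 * ‖e l‖ := by
    have m0 : (0 : ℝ) ∈ Set.Icc (0 : ℝ) 1 := ⟨le_rfl, zero_le_one⟩
    have m1 : (1 : ℝ) ∈ Set.Icc (0 : ℝ) 1 := ⟨zero_le_one, le_rfl⟩
    have c0 := hcomb 0 m0
    have c1 := hcomb 1 m1
    simp only [sub_zero, one_mul, zero_mul, add_zero] at c0
    simp only [sub_self, zero_mul, zero_add, one_mul] at c1
    rcases le_or_gt 0 (κ * inner ℝ V (e 1) - n1 * ‖e 1‖) with h | h
    · exact ⟨1, m1, h, c1.le⟩
    · have hc : ContinuousOn (fun l => κ * inner ℝ V (e l) - n1 * ‖e l‖) (Set.Icc (0 : ℝ) 1) := by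
        apply Continuous.continuousOn
        fun_prop
      obtain ⟨l, hl, hl0⟩ := intermediate_value_Icc' zero_le_one hc
        (show (0 : ℝ) ∈ Set.Icc _ _ from ⟨h.le, c0.le⟩)
      simp only at hl0
      refine ⟨l, hl, hl0.ge, ?_⟩
      have h7 := hcomb l hl
      rw [hl0, mul_zero, zero_add] at h7
      by_contra h8
      push Not at h8
      have := mul_nonneg_of_nonpos_of_nonpos h8.le (by linarith [hl.1] : -l ≤ 0)
      nlinarith [hl.1]
  have hp := hepos l hl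
  set u : Y := (κ / ‖e l‖) • e l with hu
  have hun : ‖u‖ = κ := by
    rw [hu, norm_smul, Real.norm_of_nonneg (by positivity)]
    field_simp
  have hfin : ∀ (U : Y) (n : ℝ), 0 ≤ κ * inner ℝ U (e l) - n * ‖e l‖ →
      ‖U‖ ^ 2 + 2 * n + κ ^ 2 ≤ ‖U + u‖ ^ 2 := by
    intro U n hn
    rw [norm_add_sq_real, hun]
    have h8 : inner ℝ U u = κ / ‖e l‖ * inner ℝ U (e l) := by rw [hu, inner_smul_right]
    have h9 : n ≤ inner ℝ U u := by
      rw [h8, div_mul_eq_mul_div, le_div_iff₀ hp]; linarith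
    linarith
  refine ⟨u, ?_, ?_, ?_⟩
  · rw [hun, hκ2]; ring
  · have := hfin V n1 hg1
    rw [hκ2] at this
    rw [hn1] at this
    nlinarith
  · have := hfin W n2 hg2
    rw [hκ2] at this
    rw [hn2] at this
    nlinarith

end two

section group

variable {Y : Type*} [NormedAddCommGroup Y]

/-- The property of the nonzero elements. -/
def PP (g : WithLp 2 (L1 × Y)) : Prop :=
  1 ≤ ‖g.fst‖ ∧ 2 ≤ ‖g‖ ∧ (‖g.fst‖ < (2 / √3 : ℝ) → ‖g.snd‖ ^ 2 ≤ 3)

lemma PP_neg {g : WithLp 2 (L1 × Y)} (h : PP g) : PP (-g) := by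
  refine ⟨?_, ?_, ?_⟩
  · rw [WithLp.neg_fst, norm_neg]; exact h.1
  · rw [norm_neg]; exact h.2.1
  · rw [WithLp.neg_fst, norm_neg, WithLp.neg_snd, norm_neg]; exact h.2.2

/-- Three points cannot be too close together in the first coordinate. -/
def Tri (G : AddSubgroup (WithLp 2 (L1 × Y))) : Prop :=
  ∀ (x : L1) (f g h : WithLp 2 (L1 × Y)), f ∈ G → g ∈ G → h ∈ G → f ≠ g → f ≠ h → g ≠ h →
    ∀ M : ℝ, ‖x - f.fst‖ ≤ M → ‖x - g.fst‖ ≤ M → ‖x - h.fst‖ ≤ M →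
      3 ≤ ‖x - f.fst‖ + ‖x - g.fst‖ + ‖x - h.fst‖ + M

/-- The invariant of the recursion. -/
def Inv (G : AddSubgroup (WithLp 2 (L1 × Y))) : Prop := (∀ g ∈ G, g ≠ 0 → PP g) ∧ Tri G

lemma fst_zsmul (g₁ : WithLp 2 (L1 × Y)) (m : ℤ) : (m • g₁).fst = m • g₁.fst := rfl

lemma dist_formula (k : ℕ) (a : L1) (ha : a k = 0) (τ : ℝ) (h : Y) (x : L1)
    (y : WithLp 2 (L1 × Y)) (hy : y.fst k = 0) (m : ℤ) :
    ‖x - (y + m • toLp 2 (a + lp.single 1 k τ, h)).fst‖ =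
      ‖(x - lp.single 1 k (x k) - m • a) - y.fst‖ + |x k - m * τ| := by
  have e1 : x - (y + m • toLp 2 (a + lp.single 1 k τ, h)).fst =
      ((x - lp.single 1 k (x k) - m • a) - y.fst) + lp.single 1 k (x k - m * τ) := by
    have e0 : (m • (toLp 2 (a + lp.single 1 k τ, h) : WithLp 2 (L1 × Y))).fst =
        m • a + lp.single 1 k ((m : ℝ) * τ) := by
      rw [fst_zsmul]
      simp only [WithLp.toLp_fst, smul_add]
      congr 1
      rw [← Int.cast_smul_eq_zsmul ℝ, ← lp.single_smul, smul_eq_mul]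
    rw [WithLp.add_fst, e0, lp.single_sub]; abel
  rw [e1]
  apply norm_add_single
  have h3 : (m • a : L1) k = m • (a k) := by
    rw [← Int.cast_smul_eq_zsmul ℝ, lp.coeFn_smul, Pi.smul_apply, Int.cast_smul_eq_zsmul]
  rw [lp.coeFn_sub, Pi.sub_apply, lp.coeFn_sub, Pi.sub_apply, lp.coeFn_sub, Pi.sub_apply, h3, ha,
    hy]
  simp

lemma real_tri (ξ τ : ℝ) (hτ : 1 ≤ τ) (m n : ℤ) (hmn : m ≠ n) :
    1 ≤ |ξ - m * τ| + |ξ - n * τ| := by
  have h1 : (1 : ℝ) ≤ |(m : ℝ) - n| := by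
    have : (1 : ℤ) ≤ |m - n| := Int.one_le_abs (sub_ne_zero.2 hmn)
    exact_mod_cast this
  have h2 : |((m : ℝ) - n) * τ| ≤ |ξ - m * τ| + |ξ - n * τ| := by
    have : ((m : ℝ) - n) * τ = (ξ - n * τ) - (ξ - m * τ) := by ring
    rw [this]
    linarith [abs_sub (ξ - n * τ) (ξ - m * τ)]
  rw [abs_mul, abs_of_nonneg (by linarith : (0 : ℝ) ≤ τ)] at h2
  nlinarith

lemma real_tri2 (ξ τ : ℝ) (hτ : 1 ≤ τ) (m n : ℤ) (hmn : 2 ≤ |m - n|) :
    2 ≤ |ξ - m * τ| + |ξ - n * τ| := by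
  have h1 : (2 : ℝ) ≤ |(m : ℝ) - n| := by exact_mod_cast hmn
  have h2 : |((m : ℝ) - n) * τ| ≤ |ξ - m * τ| + |ξ - n * τ| := by
    have : ((m : ℝ) - n) * τ = (ξ - n * τ) - (ξ - m * τ) := by ring
    rw [this]
    linarith [abs_sub (ξ - n * τ) (ξ - m * τ)]
  rw [abs_mul, abs_of_nonneg (by linarith : (0 : ℝ) ≤ τ)] at h2
  nlinarith

lemma fst_dist {G : AddSubgroup (WithLp 2 (L1 × Y))} (hP : ∀ g ∈ G, g ≠ 0 → PP g) (x : L1)
    {f g : WithLp 2 (L1 × Y)} (hf : f ∈ G) (hg : g ∈ G) (hfg : f ≠ g) :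
    1 ≤ ‖x - f.fst‖ + ‖x - g.fst‖ := by
  have h1 := (hP (f - g) (sub_mem hf hg) (sub_ne_zero.2 hfg)).1
  rw [WithLp.sub_fst] at h1
  have h2 : ‖f.fst - g.fst‖ ≤ ‖x - g.fst‖ + ‖x - f.fst‖ := by
    have : f.fst - g.fst = (x - g.fst) - (x - f.fst) := by abel
    rw [this]; exact norm_sub_le _ _
  linarith

lemma add_gen' (k : ℕ) (G : AddSubgroup (WithLp 2 (L1 × Y))) (hG : G ≤ Vk Y k) (hI : Inv G)
    (τ : ℝ) (hτ : 1 ≤ τ) (a : L1) (ha : ∀ i, k ≤ i → a i = 0) (h : Y)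
    (hg : ∀ y ∈ G, PP (toLp 2 (a + lp.single 1 k τ, h) - y)) :
    Inv (G ⊔ AddSubgroup.zmultiples (toLp 2 (a + lp.single 1 k τ, h))) ∧
    G ⊔ AddSubgroup.zmultiples (toLp 2 (a + lp.single 1 k τ, h)) ≤ Vk Y (k + 1) := by
  obtain ⟨hP, hT⟩ := hI
  set g₁ : WithLp 2 (L1 × Y) := toLp 2 (a + lp.single 1 k τ, h) with hg₁
  have hg₁V : g₁ ∈ Vk Y (k + 1) := by
    intro i hi
    have : i ≠ k := by omega
    simp [hg₁, ha i (by omega), Pi.single_eq_of_ne this]
  refine ⟨⟨?_, ?_⟩, sup_le (hG.trans (Vk_mono (by omega))) (by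
    rw [AddSubgroup.zmultiples_le]; exact hg₁V)⟩
  · intro g hgm hg0
    obtain ⟨y, hy, w, hw, rfl⟩ := AddSubgroup.mem_sup.1 hgm
    obtain ⟨m, rfl⟩ := AddSubgroup.mem_zmultiples_iff.1 hw
    by_cases hm0 : m = 0
    · subst hm0
      simp only [zero_smul, add_zero] at hg0 ⊢
      exact hP y hy hg0
    by_cases hm1 : m = 1
    · subst hm1
      have := hg (-y) (neg_mem hy)
      rw [sub_neg_eq_add] at this
      simpa [add_comm] using this
    by_cases hm2 : m = -1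
    · subst hm2
      have := PP_neg (hg y hy)
      have e1 : y + (-1 : ℤ) • g₁ = -(g₁ - y) := by simp; abel
      rw [e1]; exact this
    -- |m| ≥ 2
    have hm : (2 : ℝ) ≤ |(m : ℝ)| := by
      have : (2 : ℤ) ≤ |m| := by
        rcases le_total 0 m with h0 | h0
        · rw [abs_of_nonneg h0]; omega
        · rw [abs_of_nonpos h0]; omega
      exact_mod_cast this
    have e2 := dist_formula k a (ha k le_rfl) τ h 0 y (hG hy k le_rfl) m
    rw [← hg₁, zero_sub, norm_neg] at e2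
    have e3 : 2 ≤ ‖(y + m • g₁).fst‖ := by
      rw [e2]
      have h0 : ((0 : L1) k : ℝ) = 0 := rfl
      have h5 : |((0 : L1) k : ℝ) - m * τ| = |(m : ℝ)| * τ := by
        rw [h0, zero_sub, abs_neg, abs_mul, abs_of_nonneg (by linarith : (0 : ℝ) ≤ τ)]
      rw [h5]
      have := norm_nonneg ((0 : L1) - lp.single 1 k ((0 : L1) k) - m • a - y.fst)
      nlinarith
    have e4 : ‖(y + m • g₁).fst‖ ≤ ‖y + m • g₁‖ := by
      have := nsq (y + m • g₁)
      exact abs_le_of_sq_le_sq' (by nlinarith [sq_nonneg ‖(y + m • g₁).snd‖]) (norm_nonneg _) |>.2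
    refine ⟨by linarith, by linarith, fun h5 => ?_⟩
    have := rho_lt
    linarith
  · intro x f g e hf hg' he hfg hfe hge M hfM hgM heM
    obtain ⟨f0, hf0, w, hw, rfl⟩ := AddSubgroup.mem_sup.1 hf
    obtain ⟨mf, rfl⟩ := AddSubgroup.mem_zmultiples_iff.1 hw
    obtain ⟨g0, hg0, w, hw, rfl⟩ := AddSubgroup.mem_sup.1 hg'
    obtain ⟨mg, rfl⟩ := AddSubgroup.mem_zmultiples_iff.1 hw
    obtain ⟨e0, he0, w, hw, rfl⟩ := AddSubgroup.mem_sup.1 he
    obtain ⟨me, rfl⟩ := AddSubgroup.mem_zmultiples_iff.1 hw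
    have df := dist_formula k a (ha k le_rfl) τ h x f0 (hG hf0 k le_rfl) mf
    have dg := dist_formula k a (ha k le_rfl) τ h x g0 (hG hg0 k le_rfl) mg
    have de := dist_formula k a (ha k le_rfl) τ h x e0 (hG he0 k le_rfl) me
    rw [← hg₁] at df dg de
    rw [df] at hfM ⊢
    rw [dg] at hgM ⊢
    rw [de] at heM ⊢
    have nf := norm_nonneg ((x - lp.single 1 k (x k) - mf • a) - f0.fst)
    have ng := norm_nonneg ((x - lp.single 1 k (x k) - mg • a) - g0.fst)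
    have ne := norm_nonneg ((x - lp.single 1 k (x k) - me • a) - e0.fst)
    have tf := abs_nonneg (x k - mf * τ)
    have tg := abs_nonneg (x k - mg * τ)
    have te := abs_nonneg (x k - me * τ)
    by_cases h1 : mf = mg
    · by_cases h2 : mf = me
      · -- all equal
        subst h1; subst h2
        have k1 : f0 ≠ g0 := fun h => hfg (by rw [h])
        have k2 : f0 ≠ e0 := fun h => hfe (by rw [h])
        have k3 : g0 ≠ e0 := fun h => hge (by rw [h])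
        have := hT (x - lp.single 1 k (x k) - mf • a) f0 g0 e0 hf0 hg0 he0 k1 k2 k3
          (M - |x k - mf * τ|) (by linarith) (by linarith) (by linarith)
        linarith
      · subst h1
        have k1 : f0 ≠ g0 := fun h => hfg (by rw [h])
        have := fst_dist hP (x - lp.single 1 k (x k) - mf • a) hf0 hg0 k1
        have := real_tri (x k) τ hτ mf me h2
        linarith
    · by_cases h2 : mf = me
      · subst h2
        have k1 : f0 ≠ e0 := fun h => hfe (by rw [h])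
        have := fst_dist hP (x - lp.single 1 k (x k) - mf • a) hf0 he0 k1
        have := real_tri (x k) τ hτ mf mg h1
        linarith
      · by_cases h3 : mg = me
        · subst h3
          have k1 : g0 ≠ e0 := fun h => hge (by rw [h])
          have := fst_dist hP (x - lp.single 1 k (x k) - mg • a) hg0 he0 k1
          have := real_tri (x k) τ hτ mf mg h1
          linarith
        · have r1 := real_tri (x k) τ hτ mf mg h1
          have r2 := real_tri (x k) τ hτ mf me h2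
          have r3 := real_tri (x k) τ hτ mg me h3
          have : 2 ≤ |mf - mg| ∨ 2 ≤ |mf - me| ∨ 2 ≤ |mg - me| := by
            by_contra hcon
            push Not at hcon
            obtain ⟨c1, c2, c3⟩ := hcon
            rw [abs_lt] at c1 c2 c3
            omega
          rcases this with hh | hh | hh
          · have := real_tri2 (x k) τ hτ mf mg hh
            linarith
          · have := real_tri2 (x k) τ hτ mf me hh
            linarith
          · have := real_tri2 (x k) τ hτ mg me hh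
            linarith

end group

end Pool.Agent.L5helper81.PC
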